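import Pool.Agent.N174.CK.Main

/-!
# Chow-Kunneth decompositions of the factors of a product

`𝒱` is a class of smooth projective geometrically irreducible varieties over the field `k` closed
under products (for example all of them), `C` the Chow groups with rational coefficients (in the
form of their formal properties, `IsChowProj`) and `H` a Weil cohomology theory (`IsWeilProj`).

If a product `X × Y` has a Chow-Kunneth decomposition it is not known whether the factors `X` and `Y`
have one: the motive of `X` is a direct factor of the motive of `X × Y`, but the projectors of a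
direct factor are not known to lift, unless one assumes finite dimensionality. The theorem says that
decompositions with a Lefschetz property descend to the factors.

Let `D` and `E` be divisor classes on `X` and `Y` with nonzero top self-intersection numbers (for
instance ample classes). Suppose that `X × Y`, or a variety `Z` with a morphism `f : Z → X × Y` of
nonzero degree, has a Chow-Kunneth decomposition, not necessarily self-dual and not related to the
product structure, for which the intersection with the (pull-back of the) class `D × Y + X × E` is
homogeneous and induces the hard Lefschetz isomorphisms of Chow motives. Then `X` and `Y` have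
self-dual Chow-Kunneth decompositions with the same property for `D` and for `E`. Conversely, if `X`
and `Y` have such decompositions, then `X × Y` has a self-dual one.

The idea of the proof: by a theorem of the starting library (Pool/Agent/Y107, a form of the
Jacobson-Morozov lemma for correspondences) such decompositions of `X × Y` exist if and only if the
**linear** equation `δ² z = Δ_* F` has a solution `z ∈ CH(X × Y × X × Y)`, where `F = D × Y + X × E`
and `δ = F × 1 - 1 × F`. A solution for `X` is obtained from a solution `z` for `X × Y` by a partial
trace: `z` is multiplied with the class `∑ E ^ i × E ^ (e - i)` on `Y × Y`, `e = dim Y`, which is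
annihilated by `E × 1 - 1 × E`, and pushed forward to `X × X`.
-/

open CategoryTheory AlgebraicGeometry

set_option autoImplicit false

universe u v w

namespace Pool.Agent.Results.MP_524776_ag.FactorsOfProducts

open Pool.Agent.H914 Pool.Agent.W492.BB Pool.Agent.TH133 Pool.Agent.Y107 Pool.Agent.N174.CK

/-- Chow-Kunneth decompositions satisfying motivic hard Lefschetz on `X × Y` (or on a variety
covering it) for `D × Y + X × E` descend to self-dual ones of `X` for `D` and of `Y` for `E`; and
conversely. -/
theorem result {k : Type u} [Field k] {𝒱 : VarClass k} (C : TheoryData.{u, v, 0} 𝒱 ℚ)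
    [IsChowProj C] {K : Type w} [Field K] (H : WeilTheoryData.{u, v, w} C K) [IsWeilProj H]
    (X Y : 𝒱.Obj) (D : C.A X) (E : C.A Y) (hD : C.Deg 1 D) (hE : C.Deg 1 E) (a b : ℚ)
    (ha : a ≠ 0) (hb : b ≠ 0) (hDa : HasDegree C (D ^ X.dim) a)
    (hEb : HasDegree C (E ^ Y.dim) b) :
    (∀ (Z : 𝒱.Obj) (f : Z ⟶ X.prod Y) (N : ℚ), Z.dim = X.dim + Y.dim → N ≠ 0 →
      C.push f 1 = N • 1 →
      (∃ τ, IsCK H Z τ ∧ MotivicLefschetz C (C.mulCorr (C.pull f (boxSum C D E))) τ) →
      (∃ π, SelfDualLefschetz H (C.mulCorr D) π) ∧ ∃ ρ, SelfDualLefschetz H (C.mulCorr E) ρ) ∧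
    (HardLefschetzCor H (X.prod Y) (C.mulCorr (boxSum C D E)) →
      (∃ π, IsCK H X π ∧ MotivicLefschetz C (C.mulCorr D) π) →
      (∃ ρ, IsCK H Y ρ ∧ MotivicLefschetz C (C.mulCorr E) ρ) →
      ∃ τ, SelfDualLefschetz H (C.mulCorr (boxSum C D E)) τ) := by
  refine ⟨fun Z f N hZ hN hf h => ?_, fun hHL h₁ h₂ => product hD hE hHL h₁ h₂⟩
  obtain ⟨τ, h1, -, h2⟩ := exists_selfDual_of_cover f hZ hN hf (boxSum_mem hD hE) h
  exact ⟨factor_left hD hE hb hEb ⟨τ, h1, h2⟩, factor_right hD hE ha hDa ⟨τ, h1, h2⟩⟩

end Pool.Agent.Results.MP_524776_ag.FactorsOfProducts
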