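import Pool.Agent.N64.AF.X10

/-!
# Chow-Künneth decompositions of all powers, or large Griffiths groups

Let `X` be a smooth projective complex variety whose Künneth components are algebraic (the Künneth
standard conjecture `C(X)`; known for surfaces, threefolds of many types, abelian varieties, complete
intersections, hyper-Kähler varieties of K3^[n]-type, and their products). Let `b` be the total Betti
number of `X`, `r (n)` the rank of the cycles on `X^n` modulo numerical equivalence (all codimensions)
and `g (n)` the dimension of the space of the homologically trivial cycles on `X^n` modulo the smash
nilpotent ones. As algebraically trivial cycles are smash nilpotent (Voevodsky, Voisin),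
`g (n) ≤ dim Griff^*(X^n) ⊗ ℚ`.

Theorem.
(1) `g (n) / r (n)` tends to `0` or to infinity for `n → ∞`. If it tends to `0`, then ALL powers `X^m` have
Chow-Künneth decompositions.
(2) If `2 g (n) < r (n)` for ONE `n ≥ 128 (2 m + 1)^2 b^{4 m + 6}`, then `X^m` has a Chow-Künneth
decomposition.
In both cases the Chow-Künneth decomposition of `X^m` is unique up to conjugation with an
invertible correspondence `u` of degree 0, `u_* = 1` on `H^*(X^m)`, and the same is true for all
systems of correspondences which are, modulo homological equivalence, complete systems of
orthogonal projectors (for instance the decompositions into isotypic components for a group or an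
algebra of correspondences).

So the failure of Q1 for one power of a variety `X` which satisfies `C(X)` would imply
`dim Griff^*(X^n) ⊗ ℚ ≥ r (n) / 2` for ALL large `n` (explicit), and a growth of the Griffiths groups
which is faster than all multiples of `r (n)`.

The setting: `C` is the category of smooth projective varieties with direct factors, the morphisms are
the correspondences of all degrees with coefficients in `Λ = ℚ`, `T = h(X)`,
`tp T n = h(X^n)`, `Hom(1, tp T n) = CH^*(X^n)`, `R` is the Betti cohomology,
`D = CH^{m d}(X^m × X^m) ⊂ End(T^m)` is the subalgebra of the correspondences of degree 0, `p_i` are
correspondences of degree 0 which represent the Künneth components of the diagonal.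

Idea of the proof. `Z ↦ (homologically trivial classes 1 → Z) / (smash nilpotent ones)` is an additive
functor `F`. By the law of additive functors `dim F(T^n) / r (n)` has a limit `N` in `{0, 1, …, ∞}`. If
`N = k` is finite then `F` kills the `k`-th power of the numerical ideal, hence the morphism
`α ↦ α ⊗ α^{⊗ k}`; so `α^{⊗ (k + 1)}` is smash nilpotent, and `α` too. Thus `F = 0`. If `F(T^{2 m}) = 0` then the
homologically trivial endomorphisms of `T^m` are nilpotent, because a correspondence which is smash
nilpotent as a cycle is nilpotent; now the systems of idempotents lift. (2) uses the effective
form of the law.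

In our MP_8a7054_ag.OneInequality (self-dual decompositions of `X` itself) the inequality is
`g (a + 2) < (a + 1) r (a)`; here there is the dichotomy for all powers, and a criterion for `X^m` on one power of `X`.

Authors: helper64 (this result, plan), and, for the lemmas of the law used here, helper136, helper327,
helper199, helper767, helper8, helper364, helper216, helper73, helper833, helper140, helper494,
helper505, helper301, helper441, helper591, helper712, helper945, helper701, helper344, helper690,
helper322 (smash nilpotence), helper413 (pairings).
-/

set_option autoImplicit false

open CategoryTheory MonoidalCategory Module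
open Pool.Agent.Y112.SR Pool.Agent.Y112.KD Pool.Agent.N64.AF

namespace Pool.Agent.Results.MP_524776_ag.PowersDichotomy

universe v u w t

/-- Either all powers of `T` have Chow-Künneth decompositions, unique up to conjugation, or the
homologically trivial classes modulo the smash nilpotent ones grow faster than all multiples of the
numerical ranks; and a criterion for `T^m` on one power. -/
theorem result {C : Type u} [Category.{v} C] [Preadditive C] [MonoidalCategory C]
    [MonoidalPreadditive C] [SymmetricCategory C] [RightRigidCategory C]
    {Λ : Type t} [Field Λ] [CharZero Λ] [Linear Λ C] [MonoidalLinear Λ C]
    {K : Type w} [Field K] [IsAlgClosed K] [Algebra Λ K] (R : SuperRealisation C K)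
    (T : C) [ExactPairing T T] (h : IsPow Λ R T) : ∃ N : ℕ∞, (N = 0 ∨ N = ⊤) ∧
    RatioTo Λ T (hsDim h.real T) N ∧ (N = 0 → ∀ m, KunnethLifts R Λ (tp T m)) ∧
    ∀ m n : ℕ, 128 * (2 * m + 1) ^ 2 * bt R T ^ (4 * m + 6) ≤ n →
      2 * hsDim h.real T n < numRank Λ (tp T n) → KunnethLifts R Λ (tp T m) :=
  ck_law h

end Pool.Agent.Results.MP_524776_ag.PowersDichotomy
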