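import Mathlib
import Pool.Agent.N178.HX.Parts
import Pool.Agent.N178.MU.RefMain

/-!
# Refined Chow–Künneth decompositions

Let `X` be a complex abelian variety (`AV`, up to isogeny) in one of the following two classes.

(a) All simple factors of `X` are factors of an abelian variety `A` of dimension at most three (for
instance `X` is a power of `A`).

(b) There are finitely many CM types `T k`, divided into independent blocks, such that for each block
all CM types of the CM fields in this block are conjugate, or the total dimension of the block is at
most three, or the block consists of all CM types of a Galois CM field of degree at most six; and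
each simple factor of `X` is a factor of one of the abelian varieties with the CM types `T k`, or has
no complex multiplication and belongs to one of the classes in `Typ` below (of any dimension), where
an imaginary quadratic field which acts with two different multiplicities on the tangent space must
be the field of an elliptic curve of the first kind (fourfolds with such an action are excluded).

Let `M = (X, p)` be a direct summand of the Chow motive of `X`, for example `M = h(V)`, where `V` is a
smooth projective variety which is the image of `X`, or the image of a product of curves of positive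
genus such that the product of their Jacobians is `X`.

First theorem: there is a refined Chow–Künneth decomposition `M = ⊕ M_i` (in the sense of Vial, with
the Hodge coniveau). Each `M_i` has cohomology in one degree `m_i` only, and it is a direct summand of
a finite sum `⊕ h_(m_i - 2 k_i)(Y_j)(k_i)` for abelian varieties `Y_j`, so the Hodge numbers
`h^(s, t)(M_i)` with `s < k_i` or `t < k_i` are zero; each nonzero sub-Hodge structure of its
cohomology has a nonzero Hodge number `h^(s, t)` with `s = k_i` or `t = k_i`; and the pairs
`(m_i, k_i)` are different. So the sum of the `M_i` with `m_i = m` is the part of weight `m` of a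
Chow–Künneth decomposition of `M`, and the sum of the `M_i` with `m_i = m`, `k_i ≥ k` is a direct
summand of it with the largest sub-Hodge structure of coniveau at least `k` as its cohomology.

Second theorem: for each such decomposition and each dimension `j` the homologically trivial cycles of
dimension `j` on `M_i` are zero in `CH_j(M_i) ⊗ ℚ` unless `k_i ≤ j` and `m_i - k_i ≥ j + 2`, or
`(m_i, k_i) = (2 j + 1, j)`. So `CH_j(M)_hom` is the sum of the groups `CH_j(M_i)_hom` for the `M_i`
whose cohomology has Hodge numbers `h^(s, t) ≠ 0` with `s ≤ j`, `t ≥ j + 2` in each sub-Hodge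
structure, and of the points of an abelian variety (tensored with `ℚ`).

The structures `ChowTheory` (`Pool.Agent.N178.BL.Defs`) and `Projectors` (`Pool.Agent.N178.MU.Defs`)
collect the known properties of the Chow groups of complex abelian varieties which are used: the
formal properties of correspondences; Kimura's theorem that homologically trivial endomorphisms of
the motive are nilpotent; the semisimplicity of the category of motives of abelian varieties modulo
homological equivalence (Jannsen, Lieberman); the algebraic classes are a system `Sys` (Lefschetz,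
Markman); the algebraicity of the isomorphisms `H^n(Y, ℚ) ≅ H_n(Y, ℚ)` given by a polarization
(Lieberman); the projectors of Deninger and Murre; Künnemann's isomorphism `h_n(X) ≅ h^n(X)` up to a
twist, and Beauville's theorem that `CH^p(h^n(X)) = 0` for `p ≤ 1` and `n > 2 p` (for the second
theorem only).
-/

namespace Pool.Agent.Results.MP_524776_ag.RefinedDecompositions

open Module NumberField Pool.Agent.Y90 Pool.Agent.R915
open Pool.Agent.H204R3.CM (IsCMType)
open Pool.Agent.W547.KB (CMPair CMAV single)
open Pool.Agent.W547.LN (SameType)
open Pool.Agent.N830.HC (av)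
open Pool.Agent.N178.BL (ChowTheory)
open Pool.Agent.N178.MU (Projectors IsRefined)

/-- The classes of simple abelian varieties: dimension at most three; or the endomorphism algebra is
an imaginary quadratic field of signature `(p, q)` with `p, q ≤ 3` (and trivial discriminant for
`(3, 3)`); or Albert type I or II of relative dimension at most three; or dimension five and
endomorphism algebra `ℚ`; or Albert type I or II, any dimension, with the largest possible Hodge
group. -/
def Typ (Y : AV) : Prop :=
  finrank ℚ Y.H ≤ 6 ∨ QuadMult Y ∨ RealMult Y ∨ FiveDim Y ∨ FullHodge Y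

/-- Each simple factor `Y` of `X` is a factor of an abelian variety with one of the CM types `T k`; or
it has no complex multiplication, belongs to one of the classes in `Typ`, and if `ℚ(√-d)` acts on `Y`
with two different multiplicities then `Y` is not a fourfold and the elliptic curve `E` with complex
multiplication by this field is a factor of an abelian variety with one of the CM types `T k`. -/
def HasFactorsIn {K : Type} (T : K → CMPair) (X : AV) : Prop :=
  ∀ Y, IsFactor Y X → (∃ k, IsFactor Y (av (single (T k)))) ∨ (¬ HasCMult Y ∧ Typ Y ∧
    ∀ d : ℚ, Unbalanced Y d → finrank ℚ Y.H ≠ 8 ∧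
      ∃ k E, IsFactor E (av (single (T k))) ∧ finrank ℚ E.H = 2 ∧ Unbalanced E d)

/-- All CM types of the CM fields in the block `B` are conjugate, simultaneously: for each family of
CM types `Ψ k` of the CM fields there is an automorphism of `ℂ` which takes `Ψ k` to the CM type
`T k`, for all `k` in `B`. -/
def AllConjugate {K : Type} (T : K → CMPair) (B : Set K) : Prop :=
  ∀ Ψ : ∀ k, Set ((T k).E →+* ℂ), (∀ k, IsCMType (Ψ k)) →
    ∃ σ : ℂ ≃+* ℂ, ∀ k ∈ B, ∀ φ, φ ∈ Ψ k ↔ (σ : ℂ →+* ℂ).comp φ ∈ (T k).Φ

/-- The CM fields of the block `B` are subfields of the Galois CM field `L`, and all CM types of `L`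
occur. -/
def AllTypes {K : Type} (T : K → CMPair) (B : Set K) (L : Type) [Field L] [NumberField L]
    [IsCMField L] : Prop :=
  IsGalois ℚ L ∧ (∀ k ∈ B, Nonempty ((T k).E →+* L)) ∧
    ∀ (Φ : Set (L →+* ℂ)) (hΦ : IsCMType Φ), ∃ k ∈ B, SameType ⟨L, Φ, hΦ⟩ (T k)

/-- The total dimension of the block is at most three. -/
def DimAtMostThree {K : Type} (T : K → CMPair) (B : Set K) : Prop :=
  ∃ F : Finset K, (∀ k, k ∈ F ↔ k ∈ B) ∧ ∑ k ∈ F, finrank ℚ (T k).E ≤ 6

/-- The blocks `{k | b k = j}` are independent: automorphisms of `ℂ` can be prescribed separately on
the complex embeddings of the CM fields of the different blocks. (The composita of the Galois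
closures of the fields of the different blocks are linearly disjoint over `ℚ`.) -/
def IsIndependent {K J : Type} (T : K → CMPair) (b : K → J) : Prop :=
  ∀ τ : J → (ℂ ≃+* ℂ), ∃ σ : ℂ ≃+* ℂ, ∀ k (φ : (T k).E →+* ℂ),
    (σ : ℂ →+* ℂ).comp φ = (τ (b k) : ℂ →+* ℂ).comp φ

/-- The condition on the block `B`. -/
def IsGoodBlock {K : Type} (T : K → CMPair) (B : Set K) : Prop :=
  AllConjugate T B ∨ (∃ (L : Type) (_ : Field L) (_ : NumberField L) (_ : IsCMField L),
    AllTypes T B L ∧ finrank ℚ L ≤ 6) ∨ DimAtMostThree T B

/-- The classes (a) and (b) of abelian varieties. -/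
def IsGood (X : AV) : Prop :=
  (∃ A : AV, finrank ℚ A.H ≤ 6 ∧ ∀ Y, IsFactor Y X → IsFactor Y A) ∨
    ∃ (K J : Type) (_ : Fintype K) (T : K → CMPair) (b : K → J), IsIndependent T b ∧
      (∀ j, IsGoodBlock T {k | b k = j}) ∧ HasFactorsIn T X

theorem ghc {C : ChowTheory} {X : AV} (hX : IsGood X) : Pool.Agent.N178.HX.GHC C.alg X := by
  rcases hX with ⟨A, hA, hX⟩ | ⟨K, J, _, T, b, hb, hj, hX⟩
  · exact Pool.Agent.N178.HX.pow3 Pool.Agent.N178.HX.t_MAINT Pool.Agent.N178.HX.t_COV
      Pool.Agent.N178.HX.t_POW A X hA hX C.alg
  · exact Pool.Agent.N178.HX.uncond' Pool.Agent.N178.HX.t_MAINT Pool.Agent.N178.HX.t_COV T b hb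
      hj C.alg X hX

/-- **The direct summand `M = (X, p)` of the Chow motive of `X` has a refined Chow–Künneth
decomposition `M = ⊕ M_i`**, and for each such decomposition the homologically trivial cycles of
dimension `j` on `M_i` are zero unless `k_i ≤ j` and `m_i - k_i ≥ j + 2`, or
`(m_i, k_i) = (2 j + 1, j)`. The cycles on `X` are the correspondences from the point `O` to `X`. -/
theorem result (C : ChowTheory) (K : Projectors C) (X : AV) (hX : IsGood X) (p : C.Co X X)
    (hp : C.IsMotive p) :
    (∃ (ι : Type) (_ : Fintype ι) (m k : ι → ℕ) (P : ι → C.Co X X), IsRefined K p m k P) ∧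
      ∀ (ι : Type) (_ : Fintype ι) (m k : ι → ℕ) (P : ι → C.Co X X), IsRefined K p m k P →
        ∀ (O : AV) (i : ι) (j : ℤ) (z : C.Co O X), finrank ℚ O.H = 0 → C.IsDeg j z →
          (∀ ω, C.pb z ω = 0) → ¬ (k i ≤ j ∧ j + 2 ≤ (m i : ℤ) - k i) →
          ¬ ((m i : ℤ) = 2 * j + 1 ∧ (k i : ℤ) = j) → C.o (P i) z = 0 := by
  refine ⟨Pool.Agent.N178.MU.exists_refined K (ghc hX) hp,
    fun ι _ m k P h O i j z hO hz h0 h1 h2 =>
      Pool.Agent.N178.MU.refined_chow K hO h i j z hz h0 ?_⟩
  have h3 := h.le_weight i
  omega

end Pool.Agent.Results.MP_524776_ag.RefinedDecompositions
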